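import Pool.Agent.Work.MP_7112d2_mp.Final

set_option autoImplicit false

namespace Pool.Agent.Results.MP_7112d2_mp.ZeroVersusPositive

open Pool.Agent.Work.MP_7112d2_mp
open Filter Topology

/-- There are channels `N`, `M` with input space `ℂ³`, such that for `f(x) = (x-1)²` in `F` the
relative expansion coefficient of the standard `f`-divergence is zero, while the Riemannian
relative expansion coefficient is positive for `κ(x) = 2/(1+x)` in `K`, and in fact for every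
bounded `κ` in `K`. -/
theorem result :
    ∃ (N : Mat 3 →ₗ[ℂ] Mat 3) (M : Mat 3 →ₗ[ℂ] Mat 2), IsChannel N ∧ IsChannel M ∧
      InF (fun x : ℝ => (x - 1) ^ 2) ∧ etaStd (fun x : ℝ => (x - 1) ^ 2) N M = 0 ∧
      InK (fun x : ℝ => 2 / (1 + x)) ∧ 0 < etaRiem (fun x : ℝ => 2 / (1 + x)) N M ∧
      ∀ κ : ℝ → ℝ, InK κ → (∃ L : ℝ, Tendsto κ (𝓝[>] 0) (𝓝 L)) → 0 ≤ κ 0 →
        0 < etaRiem κ N M :=
  ⟨mp outN, mp outM, chN, chM, fsq_inF, etaStd_zero, kap_inK,
    etaRiem_pos kap_inK ⟨_, kap_tendsto⟩ (by norm_num [kap]),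
    fun _ h hb h0 => etaRiem_pos h hb h0⟩

end Pool.Agent.Results.MP_7112d2_mp.ZeroVersusPositive
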